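import Pool.Agent.H48.LV.Defs
import Pool.Agent.H25.PN.CmpL
import Pool.Agent.H25.PN.ScaB
import Pool.Agent.H25.Kin.Char
import Pool.Agent.H48.PI.Shift

/-!
# Module Scl: scaling of the solutions of the Landau equation
-/

set_option autoImplicit false

open MeasureTheory Set Filter Topology Pool.Agent.H25.Kin Pool.Agent.H48.PL

namespace Pool.Agent.H48.LV

variable {d : ℕ} {γ : ℝ}

/-- the linear map `(t,x,v) ↦ (μt, μx, v)` -/
private noncomputable def Scl_sclM (d : ℕ) (μ : ℝ) : (ℝ × Vec d × Vec d) →ₗ[ℝ] (ℝ × Vec d × Vec d) where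
  toFun p := (μ * p.1, μ • p.2.1, p.2.2)
  map_add' p q := by
    refine Prod.ext ?_ (Prod.ext ?_ ?_)
    · show μ * (p.1 + q.1) = μ * p.1 + μ * q.1
      ring
    · show μ • (p.2.1 + q.2.1) = μ • p.2.1 + μ • q.2.1
      exact smul_add _ _ _
    · rfl
  map_smul' c p := by
    refine Prod.ext ?_ (Prod.ext ?_ ?_)
    · show μ * (c * p.1) = c * (μ * p.1)
      ring
    · show μ • (c • p.2.1) = c • (μ • p.2.1)
      exact smul_comm _ _ _
    · rfl

private noncomputable def sclL (d : ℕ) (μ : ℝ) : (ℝ × Vec d × Vec d) →L[ℝ] (ℝ × Vec d × Vec d) :=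
  LinearMap.toContinuousLinearMap (Scl_sclM d μ)

private lemma Scl_sclL_apply (μ t : ℝ) (x v : Vec d) : sclL d μ (t, x, v) = (μ * t, μ • x, v) := rfl

private lemma Scl_unc_scl (μ : ℝ) (f : ℝ → Vec d → Vec d → ℝ) :
    unc (fun t x v => f (μ * t) (μ • x) v) = fun q => unc f (sclL d μ q) := rfl

private lemma Scl_per_nat {F : Vec d → ℝ} {i : Fin d} (h : ∀ x, F (x + Pi.single i 1) = F x) (m : ℕ)
    (x : Vec d) : F (x + (m : ℝ) • (Pi.single i (1 : ℝ) : Vec d)) = F x := by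
  induction m with
  | zero => simp
  | succ m ih =>
    have e : x + ((m + 1 : ℕ) : ℝ) • (Pi.single i (1 : ℝ) : Vec d) =
        (x + (m : ℝ) • (Pi.single i (1 : ℝ) : Vec d)) + Pi.single i 1 := by
      push_cast
      rw [add_smul, one_smul, add_assoc]
    rw [e, h, ih]

theorem lsol_scl {δ T : ℝ} {f : ℝ → Vec d → Vec d → ℝ} (hf : LSol γ δ T f) {n : ℕ} (hn : 1 ≤ n) :
    LSol γ (n * δ) (T / n) (fun t x v => f ((n : ℝ) * t) ((n : ℝ) • x) v) := by
  have hμ : (0 : ℝ) < n := by exact_mod_cast hn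
  set μ : ℝ := (n : ℝ) with hμn
  have hlt : ∀ {t : ℝ}, t < T / μ → μ * t < T := by
    intro t ht
    rw [lt_div_iff₀ hμ] at ht
    linarith [mul_comm t μ]
  have hIco : ∀ {t : ℝ}, t ∈ Ico 0 (T / μ) → μ * t ∈ Ico 0 T := fun ht =>
    ⟨mul_nonneg hμ.le ht.1, hlt ht.2⟩
  have hIoo : ∀ {t : ℝ}, t ∈ Ioo 0 (T / μ) → μ * t ∈ Ioo 0 T := fun ht =>
    ⟨mul_pos hμ ht.1, hlt ht.2⟩
  have hU : IsOpen (Ioo (0 : ℝ) T ×ˢ (univ : Set (Vec d × Vec d))) := isOpen_Ioo.prod isOpen_univ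
  unfold LSol
  refine ⟨?_, ?_, ?_, ?_, ?_, ?_, ?_⟩
  · intro t ht x v
    exact hf.nonneg _ (hIco ht) _ _
  · intro t ht x v i
    show f (μ * t) (μ • (x + Pi.single i 1)) v = f (μ * t) (μ • x) v
    rw [smul_add, hμn]
    exact Scl_per_nat (F := fun z => f ((n : ℝ) * t) z v)
      (fun z => hf.periodic _ (hIco ht) z v i) n _
  · unfold ContOn
    rw [Scl_unc_scl]
    refine hf.isCont.comp (sclL d μ).continuous.continuousOn ?_
    rintro ⟨t, x, v⟩ hq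
    rw [Scl_sclL_apply]
    exact ⟨hIco hq.1, mem_univ _⟩
  · unfold C2On
    rw [Scl_unc_scl]
    refine hf.isC2.comp (sclL d μ).contDiff.contDiffOn ?_
    rintro ⟨t, x, v⟩ hq
    rw [Scl_sclL_apply]
    exact ⟨hIoo hq.1, mem_univ _⟩
  · intro T₁ hT₁ N
    obtain ⟨C, hC⟩ := hf.decay (μ * T₁) (hlt hT₁) N
    exact ⟨C, fun t ht x v =>
      hC (μ * t) ⟨mul_nonneg hμ.le ht.1, mul_le_mul_of_nonneg_left ht.2 hμ.le⟩ _ _⟩
  · intro T₀ hT₀ T₁ hT₁ N
    obtain ⟨C, hC⟩ := hf.decay12 (μ * T₀) (mul_pos hμ hT₀) (μ * T₁) (hlt hT₁) N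
    refine ⟨(‖sclL d μ‖ + ‖sclL d μ‖ ^ 2) * C, fun t ht x v => ?_⟩
    have ht' : μ * t ∈ Icc (μ * T₀) (μ * T₁) :=
      ⟨mul_le_mul_of_nonneg_left ht.1 hμ.le, mul_le_mul_of_nonneg_left ht.2 hμ.le⟩
    have hp : sclL d μ (t, x, v) ∈ Ioo (0 : ℝ) T ×ˢ (univ : Set (Vec d × Vec d)) := by
      rw [Scl_sclL_apply]
      exact ⟨⟨lt_of_lt_of_le (mul_pos hμ hT₀) ht'.1, lt_of_le_of_lt ht'.2 (hlt hT₁)⟩, mem_univ _⟩
    have h3 : derivs12 (fun t x v => f (μ * t) (μ • x) v) t x v ≤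
        (‖sclL d μ‖ + ‖sclL d μ‖ ^ 2) * derivs12 f (μ * t) (μ • x) v := by
      unfold derivs12
      rw [Scl_unc_scl]
      have := Pool.Agent.H25.PN.derivs_cmp (sclL d μ) hU hf.isC2 hp
      rwa [Scl_sclL_apply] at this
    have h4 := hC (μ * t) ht' (μ • x) v
    have hN : 0 ≤ (1 + ‖v‖) ^ N := by positivity
    have hL : 0 ≤ ‖sclL d μ‖ + ‖sclL d μ‖ ^ 2 := by positivity
    calc (1 + ‖v‖) ^ N * derivs12 (fun t x v => f (μ * t) (μ • x) v) t x v
        ≤ (1 + ‖v‖) ^ N * ((‖sclL d μ‖ + ‖sclL d μ‖ ^ 2) * derivs12 f (μ * t) (μ • x) v) :=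
          mul_le_mul_of_nonneg_left h3 hN
      _ = (‖sclL d μ‖ + ‖sclL d μ‖ ^ 2) * ((1 + ‖v‖) ^ N * derivs12 f (μ * t) (μ • x) v) := by ring
      _ ≤ _ := mul_le_mul_of_nonneg_left h4 hL
  · intro t ht x v
    have ht' := hIoo ht
    have e0 : ((μ * 1, μ • v, (0 : Vec d)) : ℝ × Vec d × Vec d) = μ • ((1 : ℝ), v, (0 : Vec d)) := by
      refine Prod.ext ?_ (Prod.ext ?_ ?_)
      · simp
      · simp
      · simp
    have e1 : transport (fun t x v => f (μ * t) (μ • x) v) t x v =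
        μ * transport f (μ * t) (μ • x) v := by
      unfold transport
      rw [Scl_unc_scl, Pool.Agent.H25.PN.fderiv_cmp (sclL d μ) hU hf.isC2
        (by rw [Scl_sclL_apply]; exact ⟨ht', trivial⟩), Scl_sclL_apply, Scl_sclL_apply, e0, map_smul,
        smul_eq_mul]
    rw [e1, hf.solves (μ * t) ht' _ _, mul_assoc]

private lemma Scl_fd {E : Type*} [NormedAddCommGroup E] [NormedSpace ℝ E] (c : ℝ) (F : E → ℝ) :
    fderiv ℝ (c • F) = c • fderiv ℝ F := by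
  exact fderiv_const_smul_field c

private lemma Scl_fd2 {E : Type*} [NormedAddCommGroup E] [NormedSpace ℝ E] (c : ℝ) (F : E → ℝ) (p : E) :
    fderiv ℝ (fderiv ℝ (c • F)) p = c • fderiv ℝ (fderiv ℝ F) p := by
  have h := fderiv_const_smul_field (𝕜 := ℝ) (F := E →L[ℝ] ℝ) (f := fderiv ℝ F) c
  rw [Scl_fd, h]
  rfl

private lemma Scl_unc (c : ℝ) (f : ℝ → Vec d → Vec d → ℝ) :
    unc (fun t x v => c * f t x v) = c • unc f := by
  funext p
  simp [unc]

private lemma Scl_derivs (c : ℝ) (f : ℝ → Vec d → Vec d → ℝ) (t : ℝ) (x v : Vec d) :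
    derivs12 (fun t x v => c * f t x v) t x v = |c| * derivs12 f t x v := by
  have hi := NormedSpace.toNormSMulClass (𝕜 := ℝ) (E := ℝ × Vec d × Vec d →L[ℝ] (ℝ × Vec d × Vec d →L[ℝ] ℝ))
  have h1 : ‖c • fderiv ℝ (fderiv ℝ (unc f)) (t, x, v)‖ = |c| * ‖fderiv ℝ (fderiv ℝ (unc f)) (t, x, v)‖ :=
    norm_smul c _
  have h2 : ‖c • fderiv ℝ (unc f) (t, x, v)‖ = |c| * ‖fderiv ℝ (unc f) (t, x, v)‖ := norm_smul c _
  unfold derivs12 derivs
  rw [Scl_unc, Scl_fd2, Scl_fd, Pi.smul_apply, h1, h2]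
  ring

private lemma Scl_transport (c : ℝ) (f : ℝ → Vec d → Vec d → ℝ) (t : ℝ) (x v : Vec d) :
    transport (fun t x v => c * f t x v) t x v = c * transport f t x v := by
  unfold transport
  rw [Scl_unc, Scl_fd, Pi.smul_apply]
  rfl

private lemma Scl_pd (c : ℝ) (g : Vec d → ℝ) (i : Fin d) (v : Vec d) :
    pd i (fun w => c * g w) v = c * pd i g v := by
  have e : (fun w => c * g w) = c • g := rfl
  unfold pd
  rw [e, Scl_fd, Pi.smul_apply]
  rfl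

/-- the Landau operator is homogeneous of degree `2` -/
theorem landauQ_smul (γ c : ℝ) (g : Vec d → ℝ) (v : Vec d) :
    landauQ γ (fun w => c * g w) v = c ^ 2 * landauQ γ g v := by
  have h1 : ∀ i, landauFlux γ (fun w => c * g w) i = fun v => c ^ 2 * landauFlux γ g i v := by
    intro i
    funext v
    unfold landauFlux
    rw [← integral_const_mul]
    refine integral_congr_ae (Eventually.of_forall fun w => ?_)
    simp only
    rw [Finset.mul_sum]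
    refine Finset.sum_congr rfl fun j _ => ?_
    rw [Scl_pd, Scl_pd]
    ring
  unfold landauQ
  rw [Finset.mul_sum]
  refine Finset.sum_congr rfl fun i _ => ?_
  rw [h1, Scl_pd]

/-- amplitude scaling -/
theorem lsol_amp {δ T : ℝ} {f : ℝ → Vec d → Vec d → ℝ} (hf : LSol γ δ T f) {c : ℝ} (hc : 0 < c) :
    LSol γ (δ * c⁻¹) T (fun t x v => c * f t x v) := by
  unfold LSol at hf ⊢
  refine ⟨?_, ?_, ?_, ?_, ?_, ?_, ?_⟩
  · intro t ht x v
    exact mul_nonneg hc.le (hf.nonneg t ht x v)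
  · intro t ht x v i
    show c * f t (x + Pi.single i 1) v = c * f t x v
    rw [hf.periodic t ht x v i]
  · show ContinuousOn (unc (fun t x v => c * f t x v)) (Ico 0 T ×ˢ univ)
    rw [Scl_unc]
    exact (show ContinuousOn (unc f) (Ico 0 T ×ˢ univ) from hf.isCont).const_smul c
  · show ContDiffOn ℝ 2 (unc (fun t x v => c * f t x v)) (Ioo 0 T ×ˢ univ)
    rw [Scl_unc]
    exact (show ContDiffOn ℝ 2 (unc f) (Ioo 0 T ×ˢ univ) from hf.isC2).const_smul c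
  · intro T₁ hT N
    obtain ⟨C, hC⟩ := hf.decay T₁ hT N
    refine ⟨c * C, fun t ht x v => ?_⟩
    calc (1 + ‖v‖) ^ N * (c * f t x v) = c * ((1 + ‖v‖) ^ N * f t x v) := by ring
      _ ≤ c * C := mul_le_mul_of_nonneg_left (hC t ht x v) hc.le
  · intro T₀ hT0 T₁ hT N
    obtain ⟨C, hC⟩ := hf.decay12 T₀ hT0 T₁ hT N
    refine ⟨c * C, fun t ht x v => ?_⟩
    rw [Scl_derivs, abs_of_pos hc]
    calc (1 + ‖v‖) ^ N * (c * derivs12 f t x v) = c * ((1 + ‖v‖) ^ N * derivs12 f t x v) := by ring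
      _ ≤ c * C := mul_le_mul_of_nonneg_left (hC t ht x v) hc.le
  · intro t ht x v
    show transport (fun t x v => c * f t x v) t x v =
      δ * c⁻¹ * landauQ γ (fun w => c * f t x w) v
    rw [Scl_transport, hf.solves t ht x v, landauQ_smul]
    have hcc : c ≠ 0 := hc.ne'
    field_simp

theorem lsol_one {T : ℝ} {f : ℝ → Vec d → Vec d → ℝ} : LSol γ 1 T f ↔ IsLandauSol γ T f := by
  unfold LSol IsLandauSol
  simp only [one_mul]

theorem lsol_shift {δ T t₀ : ℝ} {f : ℝ → Vec d → Vec d → ℝ} (hf : LSol γ δ T f) (h0 : 0 ≤ t₀) :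
    LSol γ δ (T - t₀) (fun t => f (t₀ + t)) := Pool.Agent.H48.PI.sol_shift hf h0

theorem lsol_restrict {δ T T' : ℝ} {f : ℝ → Vec d → Vec d → ℝ} (hf : LSol γ δ T f) (h : T' ≤ T) :
    LSol γ δ T' f := Pool.Agent.H48.PI.sol_restrict hf h

end Pool.Agent.H48.LV
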