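import Pool.Agent.H37.LN.Defs
import Pool.Agent.H82.HF.Cls
import Pool.Agent.H85.HW.AvX

/-!
# Landau case of the theorem on dilute gases and oscillating data (MP_c15324_an, Q2): interfaces

`LSol γ δ T f`: solution of the Landau equation with the operator `δ Q`. Scaling: `f` solution with `δ`, then `c f` is a solution with `δ/c`, and `f(n t, n x, v)` is a solution with `n δ`.
* `GHomL` : nearly homogeneous data (H37/LN, helper37).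
* `EarlyD`: dilute gas, early times `t < θ/δ` (layer lemma, helper82; decay constants and lower bound of the mass, helper85).
* `EarlyW`: oscillating data `h(x, N x, v)`, early times.
THEOREM (this folder): dilute gases, oscillating data with a homogeneous average, neighbourhoods of homogeneous data.
-/

set_option autoImplicit false

open MeasureTheory Set Filter Topology Pool.Agent.H25.Kin Pool.Agent.H48.PR Pool.Agent.H37.LN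
open Pool.Agent.H82.HF (SchT avT)
open Pool.Agent.H85.HW (Sch2 avX)

namespace Pool.Agent.H48.LV

variable {d : ℕ}

/-- solutions of the Landau equation with the operator `δ Q` -/
def LSol (γ δ T : ℝ) (f : ℝ → Vec d → Vec d → ℝ) : Prop :=
  IsClassicalSol T (fun t x v => δ * landauQ γ (f t x) v) f

/-- homogeneous data: nonnegative, rapid decay, weighted Lipschitz, not zero -/
structure HDat (F : Vec d → ℝ) : Prop where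
  nn : ∀ v, 0 ≤ F v
  dec : ∀ N : ℕ, ∃ C, ∀ v, (1 + ‖v‖) ^ N * F v ≤ C
  lip : ∀ N : ℕ, ∃ C, ∀ v w : Vec d, ‖v - w‖ ≤ 1 → (1 + ‖v‖) ^ N * |F v - F w| ≤ C * ‖v - w‖
  pos : 0 < ∫ v, F v

/-- INTERFACE (nearly homogeneous data, H37/LN) -/
def GHomL (d : ℕ) (γ : ℝ) : Prop := ∀ F : Vec d → ℝ, HDat F → ∀ B : ℕ → ℝ,
  ∃ ε > 0, ∃ U : ℕ → ℝ, ∃ m₁ > 0, ∀ (T : ℝ) (f : ℝ → Vec d → Vec d → ℝ), IsLandauSol γ T f →
    DC B (f 0) → (∀ x v, |f 0 x v - F v| ≤ ε) →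
    ∀ t ∈ Ico 0 T, DC U (f t) ∧ ∀ x, m₁ ≤ ∫ v, f t x v

/-- INTERFACE (dilute gas, early times) -/
def EarlyD (d : ℕ) (γ : ℝ) : Prop := ∀ h : Vec d → Vec d → ℝ, SchT h → (∀ x v, 0 ≤ h x v) →
  (∀ x, 0 < ∫ v, h x v) → ∀ B : ℕ → ℝ, ∃ U₁ : ℕ → ℝ, ∀ ε > 0,
  ∃ θ > 0, ∃ ε' > 0, ∃ δ₀ : ℝ, 0 < δ₀ ∧ δ₀ ≤ 1 ∧ ∀ δ ∈ Ioc (0 : ℝ) δ₀, ∃ m₀ > 0,
  ∀ (T : ℝ) (r : ℝ → Vec d → Vec d → ℝ), LSol γ δ T r → DC B (r 0) → (∀ x v, |r 0 x v - h x v| ≤ ε') →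
    (∀ t ∈ Ico 0 T, t < θ / δ → DC U₁ (r t) ∧ ∀ x, m₀ ≤ ∫ v, r t x v) ∧
    (θ / (2 * δ) < T → ∀ x v, |r (θ / (2 * δ)) x v - avT h v| ≤ ε)

/-- INTERFACE (oscillating data, early times) -/
def EarlyW (d : ℕ) (γ : ℝ) : Prop := ∀ h : Vec d → Vec d → Vec d → ℝ, Sch2 h →
  (∀ x y v, 0 ≤ h x y v) → (∀ x y, 0 < ∫ v, h x y v) → ∀ B : ℕ → ℝ, ∃ U₁ : ℕ → ℝ, ∀ ε > 0, ∀ τ > 0,
  ∃ τ' ∈ Ioc (0 : ℝ) τ, ∃ ε' > 0, ∃ n₀ : ℕ, ∀ N ≥ n₀, ∃ m₀ > 0,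
  ∀ (T : ℝ) (f : ℝ → Vec d → Vec d → ℝ), IsLandauSol γ T f → DC B (f 0) →
    (∀ x v, |f 0 x v - h x ((N : ℝ) • x) v| ≤ ε') →
    (∀ t ∈ Ico 0 T, t ≤ τ' → DC U₁ (f t) ∧ ∀ x, m₀ ≤ ∫ v, f t x v) ∧
    (τ' < T → ∀ x v, |f τ' x v - avX h x v| ≤ ε)

end Pool.Agent.H48.LV
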