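import Pool.Agent.H48.LV.FinL
import Pool.Agent.H37.LN.FinL
import Pool.Agent.H19.EN.SFin
import Pool.Agent.H15.EL.Fin
import Pool.Agent.H87.QL.Fin
import Pool.Agent.H85.LN.Prp
import Pool.Agent.H85.LN.EarD
import Pool.Agent.H85.LN.EarW

/-!
# Landau case (MP_c15324_an, Q2): the three theorems without interfaces
-/

set_option autoImplicit false

open MeasureTheory Set Filter Topology Pool.Agent.H25.Kin Pool.Agent.H48.PL Pool.Agent.H48.PR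
open Pool.Agent.H37.LN
open Pool.Agent.H82.HF (SchT avT)
open Pool.Agent.H85.HW (Sch2 avX)

namespace Pool.Agent.H48.LV

variable {d : ℕ} {γ : ℝ}

theorem gHomL (hd : 2 ≤ d) (h1 : -2 < γ) (h2 : γ < 0) : GHomL d γ :=
  g_homL (Pool.Agent.H85.LN.prpL hd h1 h2.le) (Pool.Agent.H19.EN.sliceL hd h1 h2.le)
    (Pool.Agent.H15.EL.entL hd h1 h2.le) (Pool.Agent.H87.QL.qh_L hd h1 h2.le) hd h1 h2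

theorem diluteAll (hd : 2 ≤ d) (h1 : -2 < γ) (h2 : γ < 0) {h : Vec d → Vec d → ℝ} (hh : SchT h)
    (hn : ∀ x v, 0 ≤ h x v) (hv : ∀ x, 0 < ∫ v, h x v) (B : ℕ → ℝ) :
    ∃ δ₀ > 0, ∃ ε > 0, ∃ (M₀ : ℝ) (U : ℕ → ℝ), ∀ δ ∈ Ioc (0 : ℝ) δ₀, ∃ m₀ > 0,
      ∀ (T : ℝ) (f : ℝ → Vec d → Vec d → ℝ), IsLandauSol γ T f →
      (∀ (N : ℕ) (x v : Vec d), (1 + ‖v‖) ^ N * f 0 x v ≤ δ * B N) →
      (∀ x v, |f 0 x v - δ * h x v| ≤ δ * ε) →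
      ∀ t ∈ Ico 0 T, ∀ x, HydroBounds m₀ M₀ M₀ M₀ (f t x) ∧
        ∀ (N : ℕ) (v : Vec d), (1 + ‖v‖) ^ N * f t x v ≤ δ * U N :=
  dilute_plainL (gHomL hd h1 h2) (Pool.Agent.H85.LN.earlyD hd h1 h2.le) hh hn hv B

theorem homAll (hd : 2 ≤ d) (h1 : -2 < γ) (h2 : γ < 0) {F : Vec d → ℝ} (hF : HDat F) (B : ℕ → ℝ) :
    ∃ ε > 0, ∃ m₀ > 0, ∃ (M₀ : ℝ) (U : ℕ → ℝ),
      ∀ (T : ℝ) (f : ℝ → Vec d → Vec d → ℝ), IsLandauSol γ T f →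
      (∀ (N : ℕ) (x v : Vec d), (1 + ‖v‖) ^ N * f 0 x v ≤ B N) → (∀ x v, |f 0 x v - F v| ≤ ε) →
      ∀ t ∈ Ico 0 T, ∀ x, HydroBounds m₀ M₀ M₀ M₀ (f t x) ∧
        ∀ (N : ℕ) (v : Vec d), (1 + ‖v‖) ^ N * f t x v ≤ U N :=
  hom_plainL (gHomL hd h1 h2) hF B

theorem oscAll (hd : 2 ≤ d) (h1 : -2 < γ) (h2 : γ < 0) {h : Vec d → Vec d → Vec d → ℝ}
    (hh : Sch2 h) (hn : ∀ x y v, 0 ≤ h x y v) (hv : ∀ x y, 0 < ∫ v, h x y v)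
    (hom : ∀ x x' v, avX h x v = avX h x' v) (B : ℕ → ℝ) :
    ∃ (U : ℕ → ℝ) (M₀ : ℝ), ∃ m₁ > 0, ∀ τ > 0, ∃ ε > 0, ∃ n₀ : ℕ, ∀ N ≥ n₀, ∃ m₀ > 0,
      ∀ (T : ℝ) (f : ℝ → Vec d → Vec d → ℝ), IsLandauSol γ T f →
      (∀ (M : ℕ) (x v : Vec d), (1 + ‖v‖) ^ M * f 0 x v ≤ B M) →
      (∀ x v, |f 0 x v - h x ((N : ℝ) • x) v| ≤ ε) →
      ∀ t ∈ Ico 0 T, ∀ x, HydroBounds m₀ M₀ M₀ M₀ (f t x) ∧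
        (∀ (M : ℕ) (v : Vec d), (1 + ‖v‖) ^ M * f t x v ≤ U M) ∧
        (τ ≤ t → m₁ ≤ ∫ v, f t x v) :=
  osc_plainL (gHomL hd h1 h2) (Pool.Agent.H85.LN.earlyW hd h1 h2.le) hh hn hv hom B

end Pool.Agent.H48.LV
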