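import Pool.Agent.H48.LV.ThmL
import Pool.Agent.H48.PI.HydU

/-!
# The theorem on dilute gases, oscillating data and nearly homogeneous data for the Landau equation, in plain form

From the interfaces `GHomL`, `EarlyD`, `EarlyW`.
-/

set_option autoImplicit false

open MeasureTheory Set Filter Topology Pool.Agent.H25.Kin Pool.Agent.H48.PL Pool.Agent.H48.PR
open Pool.Agent.H37.LN
open Pool.Agent.H82.HF (SchT avT)
open Pool.Agent.H85.HW (Sch2 avX)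

namespace Pool.Agent.H48.LV

variable {d : ℕ} {γ : ℝ}

/-- **dilute gases without symmetry, Landau equation** -/
theorem dilute_plainL (hG : GHomL d γ) (hE : EarlyD d γ) {h : Vec d → Vec d → ℝ} (hh : SchT h)
    (hn : ∀ x v, 0 ≤ h x v) (hv : ∀ x, 0 < ∫ v, h x v) (B : ℕ → ℝ) :
    ∃ δ₀ > 0, ∃ ε > 0, ∃ (M₀ : ℝ) (U : ℕ → ℝ), ∀ δ ∈ Ioc (0 : ℝ) δ₀, ∃ m₀ > 0,
      ∀ (T : ℝ) (f : ℝ → Vec d → Vec d → ℝ), IsLandauSol γ T f →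
      (∀ (N : ℕ) (x v : Vec d), (1 + ‖v‖) ^ N * f 0 x v ≤ δ * B N) →
      (∀ x v, |f 0 x v - δ * h x v| ≤ δ * ε) →
      ∀ t ∈ Ico 0 T, ∀ x, HydroBounds m₀ M₀ M₀ M₀ (f t x) ∧
        ∀ (N : ℕ) (v : Vec d), (1 + ‖v‖) ^ N * f t x v ≤ δ * U N := by
  obtain ⟨δ₀, hδ₀, ε, hε, U, hU⟩ := diluteL hG hE hh hn hv B
  obtain ⟨M₀, hM₀⟩ := Pool.Agent.H48.PI.hydro_of_U d (fun N => |U N|)
  refine ⟨min δ₀ 1, lt_min hδ₀ one_pos, ε, hε, M₀, U, fun δ hδ => ?_⟩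
  have hδ0 : 0 < δ := hδ.1
  have hδ1 : δ ≤ 1 := hδ.2.trans (min_le_right _ _)
  obtain ⟨m, hm, hr⟩ := hU δ ⟨hδ0, hδ.2.trans (min_le_left _ _)⟩
  refine ⟨δ * m, mul_pos hδ0 hm, fun T f hf hfB hfh => ?_⟩
  have hr' := lsol_amp (lsol_one.2 hf) (inv_pos.2 hδ0)
  rw [inv_inv, one_mul] at hr'
  have hi : ∀ x v, f 0 x v = δ * (δ⁻¹ * f 0 x v) := fun x v => by
    rw [mul_inv_cancel_left₀ hδ0.ne']
  have key := hr T _ hr' (fun N x v => by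
      have h3 := hfB N x v
      rw [hi x v] at h3
      have h4 : δ * ((1 + ‖v‖) ^ N * (δ⁻¹ * f 0 x v)) ≤ δ * B N := by
        calc δ * ((1 + ‖v‖) ^ N * (δ⁻¹ * f 0 x v)) = (1 + ‖v‖) ^ N * (δ * (δ⁻¹ * f 0 x v)) := by ring
          _ ≤ δ * B N := h3
      exact le_of_mul_le_mul_left h4 hδ0) (fun x v => by
      have h3 := hfh x v
      rw [hi x v, ← mul_sub, abs_mul, abs_of_pos hδ0] at h3
      exact le_of_mul_le_mul_left h3 hδ0)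
  have hdec : ∀ (N : ℕ), ∀ t ∈ Ico 0 T, ∀ x v, (1 + ‖v‖) ^ N * f t x v ≤ δ * U N := by
    intro N t ht x v
    have h3 := (key t ht).1 N x v
    have h4 := mul_le_mul_of_nonneg_left h3 hδ0.le
    calc (1 + ‖v‖) ^ N * f t x v = δ * ((1 + ‖v‖) ^ N * (δ⁻¹ * f t x v)) := by
          field_simp
      _ ≤ δ * U N := h4
  have hdec1 : ∀ (N : ℕ), ∀ t ∈ Ico 0 T, ∀ x v, (1 + ‖v‖) ^ N * f t x v ≤ |U N| := by
    intro N t ht x v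
    have h3 := hdec N t ht x v
    have h4 : δ * U N ≤ δ * |U N| := mul_le_mul_of_nonneg_left (le_abs_self _) hδ0.le
    have h5 : δ * |U N| ≤ 1 * |U N| := mul_le_mul_of_nonneg_right hδ1 (abs_nonneg _)
    linarith
  intro t ht x
  have hyd := hM₀ T _ f hf hdec1 t ht x
  have hmass : δ * m ≤ ∫ v, f t x v := by
    have h3 := (key t ht).2 x
    rw [integral_const_mul] at h3
    have h4 := mul_le_mul_of_nonneg_left h3 hδ0.le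
    rwa [mul_inv_cancel_left₀ hδ0.ne'] at h4
  exact ⟨⟨hmass, hyd.1, hyd.2.1, hyd.2.2⟩, fun N v => hdec N t ht x v⟩

/-- **neighbourhoods of space homogeneous data, Landau equation** -/
theorem hom_plainL (hG : GHomL d γ) {F : Vec d → ℝ} (hF : HDat F) (B : ℕ → ℝ) :
    ∃ ε > 0, ∃ m₀ > 0, ∃ (M₀ : ℝ) (U : ℕ → ℝ),
      ∀ (T : ℝ) (f : ℝ → Vec d → Vec d → ℝ), IsLandauSol γ T f →
      (∀ (N : ℕ) (x v : Vec d), (1 + ‖v‖) ^ N * f 0 x v ≤ B N) → (∀ x v, |f 0 x v - F v| ≤ ε) →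
      ∀ t ∈ Ico 0 T, ∀ x, HydroBounds m₀ M₀ M₀ M₀ (f t x) ∧
        ∀ (N : ℕ) (v : Vec d), (1 + ‖v‖) ^ N * f t x v ≤ U N := by
  obtain ⟨ε, hε, U, m₁, hm₁, hg⟩ := hG F hF B
  obtain ⟨M₀, hM₀⟩ := Pool.Agent.H48.PI.hydro_of_U d U
  refine ⟨ε, hε, m₁, hm₁, M₀, U, fun T f hf hfB hfF t ht x => ?_⟩
  obtain ⟨k1, k2⟩ := hg T f hf hfB hfF t ht
  have hyd := hM₀ T _ f hf (fun N t ht x v => (hg T f hf hfB hfF t ht).1 N x v) t ht x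
  exact ⟨⟨k2 x, hyd.1, hyd.2.1, hyd.2.2⟩, fun N v => k1 N x v⟩

/-- **neighbourhoods of oscillating data with a homogeneous average, Landau equation** -/
theorem osc_plainL (hG : GHomL d γ) (hE : EarlyW d γ) {h : Vec d → Vec d → Vec d → ℝ} (hh : Sch2 h)
    (hn : ∀ x y v, 0 ≤ h x y v) (hv : ∀ x y, 0 < ∫ v, h x y v)
    (hom : ∀ x x' v, avX h x v = avX h x' v) (B : ℕ → ℝ) :
    ∃ (U : ℕ → ℝ) (M₀ : ℝ), ∃ m₁ > 0, ∀ τ > 0, ∃ ε > 0, ∃ n₀ : ℕ, ∀ N ≥ n₀, ∃ m₀ > 0,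
      ∀ (T : ℝ) (f : ℝ → Vec d → Vec d → ℝ), IsLandauSol γ T f →
      (∀ (M : ℕ) (x v : Vec d), (1 + ‖v‖) ^ M * f 0 x v ≤ B M) →
      (∀ x v, |f 0 x v - h x ((N : ℝ) • x) v| ≤ ε) →
      ∀ t ∈ Ico 0 T, ∀ x, HydroBounds m₀ M₀ M₀ M₀ (f t x) ∧
        (∀ (M : ℕ) (v : Vec d), (1 + ‖v‖) ^ M * f t x v ≤ U M) ∧
        (τ ≤ t → m₁ ≤ ∫ v, f t x v) := by
  have hF : HDat (avX h 0) := by
    have hSch : SchT (h 0) := (Pool.Agent.H85.HW.s2_sch hh).sch 0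
    exact avT_hdat hSch (hn 0) (hv 0)
  obtain ⟨U₁, hE1⟩ := hE h hh hn hv B
  obtain ⟨ε₀, hε₀, U₂, m₂, hm₂, hN⟩ := hG (avX h 0) hF U₁
  obtain ⟨M₀, hM₀⟩ := Pool.Agent.H48.PI.hydro_of_U d fun M => max (U₁ M) (U₂ M)
  refine ⟨fun M => max (U₁ M) (U₂ M), M₀, m₂, hm₂, fun τ hτ => ?_⟩
  obtain ⟨τ', hτ', ε', hε', n₀, hE2⟩ := hE1 ε₀ hε₀ τ hτ
  refine ⟨ε', hε', n₀, fun N hNn => ?_⟩
  obtain ⟨m₀, hm₀, hE3⟩ := hE2 N hNn
  refine ⟨min m₀ m₂, lt_min hm₀ hm₂, fun T f hf hB hcl => ?_⟩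
  obtain ⟨hE4, hE5⟩ := hE3 T f hf hB hcl
  have key : ∀ t ∈ Ico 0 T, DC (fun M => max (U₁ M) (U₂ M)) (f t) ∧
      ∀ x, min m₀ m₂ ≤ ∫ v, f t x v ∧ (τ ≤ t → m₂ ≤ ∫ v, f t x v) := by
    intro t ht
    rcases lt_or_ge t τ' with hlt | hge
    · obtain ⟨h3, h4⟩ := hE4 t ht hlt.le
      refine ⟨fun M x v => (h3 M x v).trans (le_max_left _ _), fun x =>
        ⟨(min_le_left _ _).trans (h4 x), fun h5 => ?_⟩⟩
      exact absurd (h5.trans_lt hlt) (not_lt.2 hτ'.2)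
    · have hT : τ' < T := hge.trans_lt ht.2
      have hsol : IsLandauSol γ (T - τ') (fun t => f (τ' + t)) :=
        lsol_one.1 (lsol_shift (lsol_one.2 hf) hτ'.1.le)
      have hr : t - τ' ∈ Ico 0 (T - τ') := ⟨by linarith, by linarith [ht.2]⟩
      have h6 := hN (T - τ') (fun t => f (τ' + t)) hsol (fun M x v => by
        show (1 + ‖v‖) ^ M * f (τ' + 0) x v ≤ U₁ M
        rw [add_zero]
        exact (hE4 τ' ⟨hτ'.1.le, hT⟩ le_rfl).1 M x v) (fun x v => by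
        show |f (τ' + 0) x v - avX h 0 v| ≤ ε₀
        rw [add_zero, hom 0 x v]
        exact hE5 hT x v) (t - τ') hr
      simp only [add_sub_cancel] at h6
      exact ⟨fun M x v => (h6.1 M x v).trans (le_max_right _ _), fun x =>
        ⟨(min_le_right _ _).trans (h6.2 x), fun _ => h6.2 x⟩⟩
  intro t ht x
  obtain ⟨k1, k2⟩ := key t ht
  obtain ⟨g1, g2, g3⟩ := hM₀ T _ f hf (fun M t ht x v => (key t ht).1 M x v) t ht x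
  exact ⟨⟨(k2 x).1, g1, g2, g3⟩, fun M v => k1 M x v, (k2 x).2⟩

end Pool.Agent.H48.LV
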