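import Pool.Agent.H48.LV.Scl

/-!
# THEOREM V for the Landau equation: dilute gases without symmetry

As H48/CV/ThmV, from the interfaces `GHomL` and `EarlyD`.

1. `hom_unifL`: `GHomL` near `ϑ F`, uniformly in `ϑ ∈ [1/2,1]` (compactness).
2. `late_scaleL`: `t₂ = θ/(2δ)`, `n = ⌊1/δ⌋`, `ϑ = n δ`: `w(t,x,v) = ϑ r(t₂ + n t, n x, v)` is a solution of the Landau equation, close to `ϑ F` at `t = 0`.
-/

set_option autoImplicit false

open MeasureTheory Set Filter Topology Pool.Agent.H25.Kin Pool.Agent.H48.PL Pool.Agent.H48.PR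
open Pool.Agent.H37.LN
open Pool.Agent.H82.HF (SchT avT)

namespace Pool.Agent.H48.LV

variable {d : ℕ} {γ : ℝ}

/-- `GHomL` near `ϑ F`, uniformly in `ϑ ∈ [1/2,1]` -/
theorem hom_unifL (hG : GHomL d γ) {F : Vec d → ℝ} (hF : HDat F) (B : ℕ → ℝ) :
    ∃ ε > 0, ∃ U : ℕ → ℝ, ∃ m₁ > 0, ∀ ϑ ∈ Icc (1 / 2 : ℝ) 1,
      ∀ (T : ℝ) (f : ℝ → Vec d → Vec d → ℝ), IsLandauSol γ T f → DC B (f 0) →
      (∀ x v, |f 0 x v - ϑ * F v| ≤ ε) →
      ∀ t ∈ Ico 0 T, DC U (f t) ∧ ∀ x, m₁ ≤ ∫ v, f t x v := by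
  obtain ⟨M, hM⟩ : ∃ M, ∀ v, F v ≤ M := by
    obtain ⟨M, hM⟩ := hF.dec 0
    exact ⟨M, fun v => by simpa using hM v⟩
  have hM0 : 0 ≤ M := (hF.nn 0).trans (hM 0)
  refine (isCompact_Icc (a := (1 / 2 : ℝ)) (b := 1)).induction_on
    (p := fun S : Set ℝ => ∃ ε > 0, ∃ U : ℕ → ℝ, ∃ m₁ > 0, ∀ ϑ ∈ S,
      ∀ (T : ℝ) (f : ℝ → Vec d → Vec d → ℝ), IsLandauSol γ T f → DC B (f 0) →
      (∀ x v, |f 0 x v - ϑ * F v| ≤ ε) →
      ∀ t ∈ Ico 0 T, DC U (f t) ∧ ∀ x, m₁ ≤ ∫ v, f t x v) ?_ ?_ ?_ ?_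
  · exact ⟨1, one_pos, fun _ => 0, 1, one_pos, fun ϑ h => absurd h (notMem_empty _)⟩
  · rintro S S' hSS ⟨ε, hε, U, m, hm1, h⟩
    exact ⟨ε, hε, U, m, hm1, fun ϑ hϑ => h ϑ (hSS hϑ)⟩
  · rintro S S' ⟨ε, hε, U, m, hm1, h⟩ ⟨ε', hε', U', m', hm1', h'⟩
    refine ⟨min ε ε', lt_min hε hε', fun N => max (U N) (U' N), min m m', lt_min hm1 hm1',
      fun ϑ hϑ T f hf hf0 hfF t ht => ?_⟩
    rcases hϑ with hϑ | hϑ
    · obtain ⟨k1, k2⟩ := h ϑ hϑ T f hf hf0 (fun x v => (hfF x v).trans (min_le_left _ _)) t ht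
      exact ⟨fun N x v => (k1 N x v).trans (le_max_left _ _), fun x => (min_le_left _ _).trans (k2 x)⟩
    · obtain ⟨k1, k2⟩ := h' ϑ hϑ T f hf hf0 (fun x v => (hfF x v).trans (min_le_right _ _)) t ht
      exact ⟨fun N x v => (k1 N x v).trans (le_max_right _ _),
        fun x => (min_le_right _ _).trans (k2 x)⟩
  · intro ϑ₀ hϑ₀
    have hp : 0 < ϑ₀ := by linarith [hϑ₀.1]
    have hF' : HDat (fun v => ϑ₀ * F v) := by
      refine ⟨fun v => mul_nonneg hp.le (hF.nn v), fun N => ?_, fun N => ?_, ?_⟩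
      · obtain ⟨C, hC⟩ := hF.dec N
        refine ⟨ϑ₀ * C, fun v => ?_⟩
        calc (1 + ‖v‖) ^ N * (ϑ₀ * F v) = ϑ₀ * ((1 + ‖v‖) ^ N * F v) := by ring
          _ ≤ ϑ₀ * C := mul_le_mul_of_nonneg_left (hC v) hp.le
      · obtain ⟨C, hC⟩ := hF.lip N
        refine ⟨ϑ₀ * C, fun v w hvw => ?_⟩
        calc (1 + ‖v‖) ^ N * |ϑ₀ * F v - ϑ₀ * F w| = ϑ₀ * ((1 + ‖v‖) ^ N * |F v - F w|) := by
              rw [← mul_sub, abs_mul, abs_of_pos hp]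
              ring
          _ ≤ ϑ₀ * (C * ‖v - w‖) := mul_le_mul_of_nonneg_left (hC v w hvw) hp.le
          _ = ϑ₀ * C * ‖v - w‖ := by ring
      · rw [integral_const_mul]
        exact mul_pos hp hF.pos
    obtain ⟨ε, hε, U, m₁, hm₁, hg⟩ := hG _ hF' B
    have hη : 0 < ε / (2 * (M + 1)) := by positivity
    refine ⟨Icc (1 / 2 : ℝ) 1 ∩ Metric.ball ϑ₀ (ε / (2 * (M + 1))),
      inter_mem self_mem_nhdsWithin (nhdsWithin_le_nhds (Metric.ball_mem_nhds _ hη)),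
      ε / 2, by positivity, U, m₁, hm₁, ?_⟩
    rintro ϑ ⟨-, hϑ⟩ T f hf hf0 hfF
    refine hg T f hf hf0 fun x v => ?_
    rw [Metric.mem_ball, Real.dist_eq] at hϑ
    have h3 : |ϑ - ϑ₀| * F v ≤ ε / 2 := by
      have h4 : |ϑ - ϑ₀| * F v ≤ ε / (2 * (M + 1)) * (M + 1) :=
        mul_le_mul hϑ.le ((hM v).trans (by linarith)) (hF.nn v) hη.le
      have h5 : ε / (2 * (M + 1)) * (M + 1) = ε / 2 := by
        have : M + 1 ≠ 0 := by positivity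
        field_simp
      linarith
    have h6 : |ϑ * F v - ϑ₀ * F v| ≤ ε / 2 := by
      rw [← sub_mul, abs_mul, abs_of_nonneg (hF.nn v)]
      exact h3
    have h7 := abs_sub_le (f 0 x v) (ϑ * F v) (ϑ₀ * F v)
    linarith [hfF x v]

/-- the late times: `w(t,x,v) = ϑ r(t₂ + n t, n x, v)` with `ϑ = n δ ∈ [1/2,1]` -/
theorem late_scaleL {F : Vec d → ℝ} {ε m₁ : ℝ} (hm₁ : 0 ≤ m₁) {U B : ℕ → ℝ}
    (hg : ∀ ϑ ∈ Icc (1 / 2 : ℝ) 1,
      ∀ (T : ℝ) (f : ℝ → Vec d → Vec d → ℝ), IsLandauSol γ T f → DC (fun N => |B N|) (f 0) →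
      (∀ x v, |f 0 x v - ϑ * F v| ≤ ε) →
      ∀ t ∈ Ico 0 T, DC U (f t) ∧ ∀ x, m₁ ≤ ∫ v, f t x v)
    {δ : ℝ} (hδ : 0 < δ) (hδ1 : δ ≤ 1) {T : ℝ} {r : ℝ → Vec d → Vec d → ℝ}
    (hr : LSol γ δ T r) {t₂ : ℝ} (ht₂ : 0 ≤ t₂) (hB : DC B (r t₂))
    (hF : ∀ x v, |r t₂ x v - F v| ≤ ε) :
    ∀ t ∈ Ico t₂ T, DC (fun N => 2 * |U N|) (r t) ∧ ∀ x, m₁ ≤ ∫ v, r t x v := by
  obtain ⟨n, hn⟩ : ∃ n : ℕ, n = ⌊1 / δ⌋₊ := ⟨_, rfl⟩
  have h1δ : 1 ≤ 1 / δ := by rw [le_div_iff₀ hδ, one_mul]; exact hδ1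
  have hn1 : 1 ≤ n := by
    rw [hn]
    exact Nat.le_floor (by simpa using h1δ)
  have hnR : (1 : ℝ) ≤ n := by exact_mod_cast hn1
  have hn0 : (0 : ℝ) < n := by linarith
  have hle : (n : ℝ) ≤ 1 / δ := by
    rw [hn]
    exact Nat.floor_le (by positivity)
  have hlt : 1 / δ < n + 1 := by
    rw [hn]
    exact Nat.lt_floor_add_one _
  obtain ⟨θ, hθ⟩ : ∃ θ : ℝ, θ = n * δ := ⟨_, rfl⟩
  have hθ1 : θ ≤ 1 := by
    rw [hθ]
    rwa [le_div_iff₀ hδ] at hle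
  have hθ2 : 1 / 2 ≤ θ := by
    rw [hθ]
    rw [div_lt_iff₀ hδ] at hlt
    nlinarith
  have hθ0 : 0 < θ := by linarith
  have s0 := lsol_shift hr ht₂
  have s1 := lsol_scl s0 hn1
  have s2 := lsol_amp s1 hθ0
  have hker : (n : ℝ) * δ * θ⁻¹ = 1 := by
    rw [hθ]
    field_simp
  rw [hker] at s2
  have s3 : IsLandauSol γ ((T - t₂) / n)
      (fun t x v => θ * r (t₂ + (n : ℝ) * t) ((n : ℝ) • x) v) := lsol_one.1 s2
  have hA : DC (fun N => |B N|) (fun x v => θ * r (t₂ + (n : ℝ) * 0) ((n : ℝ) • x) v) := by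
    intro N x v
    show (1 + ‖v‖) ^ N * (θ * r (t₂ + (n : ℝ) * 0) ((n : ℝ) • x) v) ≤ |B N|
    rw [mul_zero, add_zero]
    have h1 := hB N ((n : ℝ) • x) v
    calc (1 + ‖v‖) ^ N * (θ * r t₂ ((n : ℝ) • x) v)
        = θ * ((1 + ‖v‖) ^ N * r t₂ ((n : ℝ) • x) v) := by ring
      _ ≤ θ * B N := mul_le_mul_of_nonneg_left h1 hθ0.le
      _ ≤ θ * |B N| := mul_le_mul_of_nonneg_left (le_abs_self _) hθ0.le
      _ ≤ 1 * |B N| := mul_le_mul_of_nonneg_right hθ1 (abs_nonneg _)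
      _ = |B N| := one_mul _
  have hC : ∀ x v, |θ * r (t₂ + (n : ℝ) * 0) ((n : ℝ) • x) v - θ * F v| ≤ ε := by
    intro x v
    rw [mul_zero, add_zero, ← mul_sub, abs_mul, abs_of_pos hθ0]
    calc θ * |r t₂ ((n : ℝ) • x) v - F v| ≤ 1 * ε :=
          mul_le_mul hθ1 (hF _ _) (abs_nonneg _) zero_le_one
      _ = ε := one_mul _
  intro t ht
  have ht' : (t - t₂) / n ∈ Ico 0 ((T - t₂) / n) :=
    ⟨div_nonneg (by linarith [ht.1]) hn0.le, div_lt_div_of_pos_right (by linarith [ht.2]) hn0⟩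
  obtain ⟨k1, k2⟩ := hg θ ⟨hθ2, hθ1⟩ _ _ s3 hA hC ((t - t₂) / n) ht'
  have e1 : t₂ + (n : ℝ) * ((t - t₂) / n) = t := by
    field_simp
    ring
  have e2 : ∀ x : Vec d, (n : ℝ) • ((n : ℝ)⁻¹ • x) = x := fun x => by
    rw [smul_smul, mul_inv_cancel₀ hn0.ne', one_smul]
  have h6 : θ⁻¹ ≤ 2 := by
    rw [inv_le_comm₀ hθ0 two_pos]
    linarith
  constructor
  · intro N x v
    have key := k1 N ((n : ℝ)⁻¹ • x) v
    simp only [e1, e2] at key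
    have h5 : (1 + ‖v‖) ^ N * r t x v = θ⁻¹ * ((1 + ‖v‖) ^ N * (θ * r t x v)) := by
      field_simp
    rw [h5]
    calc θ⁻¹ * ((1 + ‖v‖) ^ N * (θ * r t x v)) ≤ θ⁻¹ * U N :=
          mul_le_mul_of_nonneg_left key (inv_nonneg.2 hθ0.le)
      _ ≤ θ⁻¹ * |U N| := mul_le_mul_of_nonneg_left (le_abs_self _) (inv_nonneg.2 hθ0.le)
      _ ≤ 2 * |U N| := mul_le_mul_of_nonneg_right h6 (abs_nonneg _)
  · intro x
    have k3 := k2 ((n : ℝ)⁻¹ • x)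
    simp only [e1, e2] at k3
    rw [integral_const_mul] at k3
    have h7 : 0 ≤ ∫ v, r t x v := by
      by_contra hcon
      push Not at hcon
      nlinarith
    nlinarith

/-- the average over the torus as a homogeneous datum -/
private lemma ThmL_W (N : ℕ) (v : Vec d) : (1 + ‖v‖) ^ N * Wp N v ≤ 2 ^ N := by
  have h0 := norm_nonneg v
  have h1 : (1 + ‖v‖) ^ 2 ≤ 2 * (1 + nsq v) := by
    have h2 : ‖v‖ ^ 2 ≤ nsq v := by
      have := pow_le_pow_left₀ h0 (norm_le_len v) 2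
      rwa [len_sq] at this
    nlinarith [sq_nonneg (1 - ‖v‖)]
  have h3 : 0 < 1 + nsq v := by
    have := sq_nonneg' v
    linarith
  have h4 : 1 + ‖v‖ ≤ 2 * (1 + nsq v) := by nlinarith
  unfold Wp
  rw [← div_eq_mul_inv, div_le_iff₀ (by positivity), ← mul_pow]
  exact pow_le_pow_left₀ (by linarith) h4 N

private lemma ThmL_len (v : Vec d) : len v ≤ ((d : ℝ) + 1) * ‖v‖ := by
  have h0 := norm_nonneg v
  have h1 : (0 : ℝ) ≤ d := Nat.cast_nonneg _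
  refine le_of_pow_le_pow_left₀ two_ne_zero (by positivity) ?_
  rw [len_sq]
  have h3 := sq_le v
  nlinarith [mul_nonneg h1 (sq_nonneg ‖v‖), sq_nonneg ‖v‖]

/-- functions of the class `HR 1` for all weights are homogeneous data -/
theorem hdat_of_hr {F : Vec d → ℝ} (hn : ∀ v, 0 ≤ F v) (hp : 0 < ∫ v, F v)
    (h : ∀ q : ℕ, ∃ M : ℝ, 0 ≤ M ∧ Pool.Agent.H82.HF.HR 1 q M F) : HDat F := by
  refine ⟨hn, fun N => ?_, fun N => ?_, hp⟩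
  · obtain ⟨M, hM0, hM⟩ := h N
    refine ⟨M * 2 ^ N, fun v => ?_⟩
    have h1 := (le_abs_self _).trans (hM.le v)
    have h2 : 0 < (1 + ‖v‖) ^ N := by
      have := norm_nonneg v
      positivity
    calc (1 + ‖v‖) ^ N * F v ≤ (1 + ‖v‖) ^ N * (M * Wp N v) :=
          mul_le_mul_of_nonneg_left h1 h2.le
      _ = M * ((1 + ‖v‖) ^ N * Wp N v) := by ring
      _ ≤ M * 2 ^ N := mul_le_mul_of_nonneg_left (ThmL_W N v) hM0
  · obtain ⟨M, hM0, hM⟩ := h N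
    refine ⟨M * ((d : ℝ) + 1) * (2 ^ N + 2 ^ N * 2 ^ N), fun v w hvw => ?_⟩
    have h1 := hM.hol w (v - w)
    rw [add_sub_cancel, Real.rpow_one] at h1
    have h2 : min 1 (len (v - w)) ≤ ((d : ℝ) + 1) * ‖v - w‖ :=
      (min_le_right _ _).trans (ThmL_len _)
    have h7 : 0 ≤ min 1 (len (v - w)) := le_min zero_le_one (len_nonneg _)
    have h8 : 0 < (1 + ‖v‖) ^ N := by
      have := norm_nonneg v
      positivity
    have h9 : (1 + ‖v‖) ^ N ≤ 2 ^ N * (1 + ‖w‖) ^ N := by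
      rw [← mul_pow]
      refine pow_le_pow_left₀ (by positivity) ?_ N
      have h10 : ‖v‖ ≤ ‖w‖ + ‖v - w‖ := by
        have := norm_add_le w (v - w)
        rwa [add_sub_cancel] at this
      have := norm_nonneg w
      linarith
    have h11 : (1 + ‖v‖) ^ N * (Wp N w + Wp N v) ≤ 2 ^ N + 2 ^ N * 2 ^ N := by
      have h12 := ThmL_W N v
      have h13 : (1 + ‖v‖) ^ N * Wp N w ≤ 2 ^ N * 2 ^ N := by
        calc (1 + ‖v‖) ^ N * Wp N w ≤ 2 ^ N * (1 + ‖w‖) ^ N * Wp N w :=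
              mul_le_mul_of_nonneg_right h9 (Wp_pos N w).le
          _ = 2 ^ N * ((1 + ‖w‖) ^ N * Wp N w) := by ring
          _ ≤ 2 ^ N * 2 ^ N := mul_le_mul_of_nonneg_left (ThmL_W N w) (by positivity)
      rw [mul_add]
      linarith
    calc (1 + ‖v‖) ^ N * |F v - F w|
        ≤ (1 + ‖v‖) ^ N * (M * min 1 (len (v - w)) * (Wp N w + Wp N v)) :=
          mul_le_mul_of_nonneg_left h1 h8.le
      _ = M * min 1 (len (v - w)) * ((1 + ‖v‖) ^ N * (Wp N w + Wp N v)) := by ring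
      _ ≤ M * (((d : ℝ) + 1) * ‖v - w‖) * (2 ^ N + 2 ^ N * 2 ^ N) :=
          mul_le_mul (mul_le_mul_of_nonneg_left h2 hM0) h11
            (mul_nonneg h8.le (add_nonneg (Wp_pos N w).le (Wp_pos N v).le))
            (mul_nonneg hM0 (mul_nonneg (by positivity) (norm_nonneg _)))
      _ = M * ((d : ℝ) + 1) * (2 ^ N + 2 ^ N * 2 ^ N) * ‖v - w‖ := by ring

theorem avT_hdat {h : Vec d → Vec d → ℝ} (hh : SchT h) (hn : ∀ x v, 0 ≤ h x v)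
    (hv : ∀ x, 0 < ∫ v, h x v) : HDat (avT h) := by
  have hpt : ∃ v, 0 < h 0 v := by
    by_contra hcon
    push Not at hcon
    have h1 := integral_nonpos (μ := (volume : Measure (Vec d))) (f := fun v => h 0 v)
      (fun v => hcon v)
    exact absurd (hv 0) (not_lt.2 h1)
  obtain ⟨v₀, hv₀⟩ := hpt
  exact hdat_of_hr (Pool.Agent.H82.HF.avT_nn hn) (Pool.Agent.H82.HF.avT_pos hh hn hv₀)
    fun q => Pool.Agent.H82.HF.avT_hr hh q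

/-- **dilute gases, in the scaling of the operator** -/
theorem diluteL (hG : GHomL d γ) (hE : EarlyD d γ) {h : Vec d → Vec d → ℝ} (hh : SchT h)
    (hn : ∀ x v, 0 ≤ h x v) (hv : ∀ x, 0 < ∫ v, h x v) (B : ℕ → ℝ) :
    ∃ δ₀ > 0, ∃ ε > 0, ∃ U : ℕ → ℝ, ∀ δ ∈ Ioc (0 : ℝ) δ₀, ∃ m₀ > 0,
      ∀ (T : ℝ) (r : ℝ → Vec d → Vec d → ℝ), LSol γ δ T r → DC B (r 0) →
      (∀ x v, |r 0 x v - h x v| ≤ ε) →
      ∀ t ∈ Ico 0 T, DC U (r t) ∧ ∀ x, m₀ ≤ ∫ v, r t x v := by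
  have hF := avT_hdat hh hn hv
  obtain ⟨U₁, hU₁⟩ := hE h hh hn hv B
  obtain ⟨εs, hεs, Us, ms, hms, hg⟩ := hom_unifL hG hF (fun N => |U₁ N|)
  obtain ⟨θ, hθ, ε', hε', δ₀, hδ₀, hδ₀1, hr⟩ := hU₁ εs hεs
  refine ⟨δ₀, hδ₀, ε', hε', fun N => max (U₁ N) (2 * |Us N|), fun δ hδ => ?_⟩
  obtain ⟨m₀, hm₀, hr'⟩ := hr δ hδ
  refine ⟨min m₀ ms, lt_min hm₀ hms, fun T r hs hB hc t ht => ?_⟩
  obtain ⟨hearly, hlate⟩ := hr' T r hs hB hc
  have hδ0 : 0 < δ := hδ.1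
  rcases lt_or_ge t (θ / δ) with htθ | htθ
  · obtain ⟨k1, k2⟩ := hearly t ht htθ
    exact ⟨fun N x v => (k1 N x v).trans (le_max_left _ _), fun x => (min_le_left _ _).trans (k2 x)⟩
  · have ht₂ : 0 < θ / (2 * δ) := by positivity
    have ht₂1 : θ / (2 * δ) < θ / δ := by
      have : θ / (2 * δ) = θ / δ / 2 := by
        field_simp
      rw [this]
      exact half_lt_self (by positivity)
    have ht₂T : θ / (2 * δ) < T := ht₂1.trans_le (htθ.trans ht.2.le)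
    have hU := (hearly (θ / (2 * δ)) ⟨ht₂.le, ht₂T⟩ ht₂1).1
    obtain ⟨k1, k2⟩ := late_scaleL hms.le hg hδ0 (hδ.2.trans hδ₀1) hs ht₂.le hU
      (hlate ht₂T) t ⟨(ht₂1.trans_le htθ).le, ht.2⟩
    exact ⟨fun N x v => (k1 N x v).trans (le_max_right _ _), fun x => (min_le_right _ _).trans (k2 x)⟩

end Pool.Agent.H48.LV
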